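import Mathlib
import Pool.Agent.W283.MinCirc.Lower67
import Pool.Agent.W283.MinCirc.IntMirror

/-! The minimum number `m(n)` of circles determined by `n` points of the plane that do not all lie
on one line or one circle: the exact value for `n = 4, 5, 6, 7` and for every `n ≥ 15`. -/

namespace Pool.Agent.Results.MP_1f1ca1_co.SmallAndLarge

open Finset Pool.Agent.Helper543.Melchior Pool.Agent.Helper543.Blocks
open Pool.Agent.Helper543.Count Pool.Agent.Helper543.Bounds Pool.Agent.Helper543.Small
open Pool.Agent.W283.MinCirc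

/-- the Euclidean plane -/
abbrev Plane := EuclideanSpace ℝ (Fin 2)

/-- the circles (of positive radius) passing through at least three points of `P` -/
def Circles (P : Set Plane) : Set (Set Plane) :=
  {C | (∃ (c : Plane) (r : ℝ), 0 < r ∧ C = Metric.sphere c r) ∧ 3 ≤ (P ∩ C).ncard}

/-- the points do not all lie on one line and do not all lie on one circle -/
def Admissible (P : Set Plane) : Prop :=
  ¬ Collinear ℝ P ∧ ¬ ∃ (c : Plane) (r : ℝ), 0 < r ∧ P ⊆ Metric.sphere c r

/-- the numbers of circles determined by admissible sets of `n` points -/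
def counts (n : ℕ) : Set ℕ :=
  {k | ∃ P : Finset Plane, P.card = n ∧ Admissible (P : Set Plane) ∧
    (Circles (P : Set Plane)).ncard = k}

lemma lower_of (n k : ℕ) (hn : 3 ≤ n)
    (h : ∀ (P : Finset Pt), P.card = n → ∀ (h3 : 3 ≤ P.card)
      (hP : ∀ B ∈ blocks P, ∃ x ∈ P, x ∉ B),
      (k : ℤ) ≤ cc (Pool.Agent.Helper543.PlaneC.cfg P h3 hP)) :
    k ∈ lowerBounds (counts n) := by
  rintro j ⟨P, hc, hadm, rfl⟩
  have hadm' : Pool.Agent.Helper543.PlaneC.Admissible (P : Set Plane) := hadm
  rw [Pool.Agent.Helper543.PlaneC.admissible_iff P (by omega)] at hadm'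
  have hcard : (P.image Pool.Agent.Helper543.PlaneC.phi).card = n := by
    rw [card_image_of_injective _ Pool.Agent.Helper543.PlaneC.phi_inj, hc]
  have := h _ hcard (by omega) hadm'
  have e : (Circles (P : Set Plane)).ncard =
      (Pool.Agent.Helper543.PlaneC.Circles (P : Set Plane)).ncard := rfl
  rw [e, Pool.Agent.Helper543.PlaneC.ncard_circles]
  unfold cc Cfg.circ at this
  simp only [Pool.Agent.Helper543.PlaneC.cfg] at this
  exact_mod_cast this

/-- if `k` is a lower bound and some admissible set determines at most `k` circles -/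
lemma isLeast_of {n k : ℕ} (h1 : k ∈ lowerBounds (counts n)) (P : Finset Plane)
    (hc : P.card = n) (ha : Admissible (P : Set Plane))
    (hk : (Circles (P : Set Plane)).ncard ≤ k) : IsLeast (counts n) k := by
  refine ⟨⟨P, hc, ha, le_antisymm hk (h1 ⟨P, hc, ha, rfl⟩)⟩, h1⟩

lemma formula (n : ℕ) (hn : 2 ≤ n) :
    (n - 2) ^ 2 / 2 + 1 = (n - 1).choose 2 + 1 - (n - 1) / 2 := by
  obtain ⟨m, rfl⟩ : ∃ m, n = m + 1 := ⟨n - 1, by omega⟩
  have e1 : m + 1 - 2 = m - 1 := by omega
  have e2 : m + 1 - 1 = m := by omega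
  rw [e1, e2, Nat.choose_two_right]
  obtain ⟨a, rfl | rfl⟩ : ∃ a, m = 2 * a ∨ m = 2 * a + 1 := ⟨m / 2, by omega⟩
  · obtain ⟨b, rfl⟩ : ∃ b, a = b + 1 := ⟨a - 1, by omega⟩
    have h1 : (2 * (b + 1) - 1) ^ 2 = 2 * (2 * b * b + 2 * b) + 1 := by
      have : 2 * (b + 1) - 1 = 2 * b + 1 := by omega
      rw [this]; ring
    have h2 : 2 * (b + 1) * (2 * (b + 1) - 1) = 2 * ((b + 1) * (2 * b + 1)) := by
      have : 2 * (b + 1) - 1 = 2 * b + 1 := by omega
      rw [this]; ring
    rw [h1, h2, Nat.mul_div_cancel_left _ (by norm_num)]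
    have h3 : (b + 1) * (2 * b + 1) = 2 * b * b + 3 * b + 1 := by ring
    rw [h3]
    generalize b * b = c at *
    have h4 : 2 * b * b = 2 * (b * b) := by ring
    rw [h4]
    omega
  · have h1 : (2 * a + 1 - 1) ^ 2 = 2 * (2 * (a * a)) := by
      have : 2 * a + 1 - 1 = 2 * a := by omega
      rw [this]; ring
    have h2 : (2 * a + 1) * (2 * a + 1 - 1) = 2 * (2 * (a * a) + a) := by
      have : 2 * a + 1 - 1 = 2 * a := by omega
      rw [this]; ring
    rw [h1, h2, Nat.mul_div_cancel_left _ (by norm_num), Nat.mul_div_cancel_left _ (by norm_num)]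
    omega

lemma star_case (n k : ℕ) (hn : 4 ≤ n) (hk : k = (n - 1).choose 2 + 1 - (n - 1) / 2)
    (h1 : k ∈ lowerBounds (counts n)) : IsLeast (counts n) k := by
  refine isLeast_of h1 (starP (n - 1)) (by rw [starP_card]; omega)
    (starP_admissible (n - 1) (by omega)) ?_
  rw [hk]
  exact upper (n - 1)

/-- the value of `m(n)` for `n ≤ 7` and for `n ≥ 15` -/
def value (n : ℕ) : ℕ :=
  if n = 6 then 8 else if n = 7 then 11 else (n - 1).choose 2 + 1 - (n - 1) / 2

/-- **The minimum number of circles determined by `n` points.**  Let `m(n)` be the least number of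
circles determined by `n` points of the plane that are neither all on a line nor all on a circle.
Then, for every `n ≥ 4` other than `8, 9, ..., 14`, `m(n)` is `8` if `n = 6`, `11` if `n = 7` and
`C(n-1, 2) + 1 - ⌊(n-1)/2⌋` otherwise. -/
theorem result (n : ℕ) (hn : 4 ≤ n) (hn' : n ≤ 7 ∨ 15 ≤ n) : IsLeast (counts n) (value n) := by
  by_cases h15 : 15 ≤ n
  · have hv : value n = (n - 1).choose 2 + 1 - (n - 1) / 2 := by
      unfold value
      rw [if_neg (by omega), if_neg (by omega)]
    refine star_case n _ hn hv ?_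
    rintro k ⟨P, hc, ha, rfl⟩
    have h := Pool.Agent.Helper543.PlaneC.lower P (by omega) ha
    rw [hc, formula n (by omega)] at h
    rw [hv]
    exact h
  · have h47 : n = 4 ∨ n = 5 ∨ n = 6 ∨ n = 7 := by omega
    rcases h47 with rfl | rfl | rfl | rfl
    · refine star_case 4 3 le_rfl (by decide) (lower_of 4 3 (by norm_num) ?_)
      intro P hc h3 hP
      exact lower4 _ hc (notMem_blocks hP)
    · refine star_case 5 5 (by norm_num) (by decide) (lower_of 5 5 (by norm_num) ?_)
      intro P hc h3 hP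
      exact lower5 _ hc (notMem_blocks hP)
    · refine isLeast_of (lower_of 6 8 (by norm_num) fun P hc h3 hP => lower6 P hc h3 hP) (zP S6)
        (by rw [zP_card, S6_card]) (zP_admissible S6 (by rw [S6_card]; norm_num) S6_adm) ?_
      exact (zP_upper S6).trans (le_of_eq S6_circ)
    · refine isLeast_of (lower_of 7 11 (by norm_num) fun P hc h3 hP => lower7 P hc h3 hP) (zP S7)
        (by rw [zP_card, S7_card]) (zP_admissible S7 (by rw [S7_card]; norm_num) S7_adm) ?_
      exact (zP_upper S7).trans (le_of_eq S7_circ)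

end Pool.Agent.Results.MP_1f1ca1_co.SmallAndLarge
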